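import Pool.Agent.Work.MP_dd2eb3_aa.B_COL
import Pool.Agent.Work.MP_dd2eb3_aa.B_HYP2
import Pool.Agent.Work.MP_dd2eb3_aa.B_SUBL
import Pool.Agent.Work.MP_dd2eb3_aa.B_CNTD
import Pool.Agent.Work.MP_dd2eb3_aa.B_CNTI
import Pool.Agent.Work.MP_dd2eb3_aa.B_CNT1
import Pool.Agent.Work.MP_dd2eb3_aa.B_EIG
import Pool.Agent.Work.MP_dd2eb3_aa.B_PAIR
import Pool.Agent.Work.MP_dd2eb3_aa.B_FUL
import Pool.Agent.Work.MP_dd2eb3_aa.B_BADI
import Pool.Agent.Work.MP_dd2eb3_aa.B_BADD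
import Pool.Agent.Work.MP_dd2eb3_aa.B_BAD1
import Pool.Agent.Work.MP_dd2eb3_aa.B_SUMQ
import Pool.Agent.Work.MP_dd2eb3_aa.B_SUMC
import Pool.Agent.Work.MP_dd2eb3_aa.B_DEG
import Pool.Agent.Work.MP_dd2eb3_aa.B_GLC
import Pool.Agent.Work.MP_dd2eb3_aa.B_FINL

/-!
For every finite field `F` with `q` elements and all `m`, `n` with `n ≥ 16 m`, the proportion of
the matrices `A` in `GL(n,F)` for which none of the first `m` cyclic shifts of the columns of `A`
gives a cyclic matrix is at most `8 (4 / q ^ 3) ^ m`. So the proportion of the invertible matrices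
over `F` which cannot be made cyclic by a permutation of the columns is exponentially small in `n`.
-/

namespace Pool.Agent.Results.MP_dd2eb3_al.AlmostAll

open Pool.CYA

theorem result (F : Type) [Field F] [Finite F] (n m : ℕ) (h : 16 * m ≤ n) :
    Nat.card F ^ (3 * m) * Nat.card {A : Matrix (Fin n) (Fin n) F // A.det ≠ 0 ∧ ∀ j < m,
      minpoly F (A * ((finRotate n) ^ j).permMatrix F) ≠
        (A * ((finRotate n) ^ j).permMatrix F).charpoly} ≤
    8 * 4 ^ m * Nat.card {A : Matrix (Fin n) (Fin n) F // A.det ≠ 0} := by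
  have hCNTD := p_CNTD p_COL p_HYP2 p_SUBL
  have hCNTI := p_CNTI p_COL
  have hCNT1 := p_CNT1 p_COL
  have hBADI := p_BADI hCNTI p_PAIR
  have hBADD := p_BADD hCNTD p_FUL
  have hBAD1 := p_BAD1 hCNT1 p_PAIR p_FUL
  exact p_FINL b_EIG p_DEG hBADI hBADD hBAD1 p_SUMA p_SUMB p_SUMC p_GLC F n m h

end Pool.Agent.Results.MP_dd2eb3_al.AlmostAll
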