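import Pool.Agent.Work.MP_dd2eb3_hess.Cyc

/-!
For every field `F` and every invertible `A` such that `A`, its transpose, its inverse or the
transpose of its inverse is upper Hessenberg after some ordering of the rows and some ordering of
the columns, the last three columns being arbitrary, some column permutation makes `A` cyclic.
-/

namespace Pool.Agent.Results.MP_dd2eb3_al.HessenbergPattern

/-- After some ordering of the rows and some ordering of the columns of `B` all entries two or more
places below the diagonal are zero, except possibly in the last three columns. -/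
def AlmostHessenberg {F : Type*} [Field F] {n : ℕ} (B : Matrix (Fin n) (Fin n) F) : Prop :=
  ∃ σ τ : Equiv.Perm (Fin n), ∀ i j : Fin n, j.1 + 1 < i.1 → j.1 + 3 < n → B (σ i) (τ j) = 0

/-- Every column of `B` but one has at most two nonzero entries. -/
def TwoPerColumn {F : Type*} [Field F] {n : ℕ} (B : Matrix (Fin n) (Fin n) F) : Prop :=
  ∃ j₀ : Fin n, ∀ j : Fin n, j ≠ j₀ → Nat.card {i : Fin n // B i j ≠ 0} ≤ 2

theorem TwoPerColumn.almostHessenberg {F : Type*} [Field F] {n : ℕ}
    {B : Matrix (Fin n) (Fin n) F} (h : TwoPerColumn B) : AlmostHessenberg B := by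
  obtain ⟨j₀, h⟩ := h
  obtain _ | m := n
  · exact j₀.elim0
  obtain ⟨σ, τ, hστ⟩ := Pool.Agent.Work.CycHess.exists_order m (B.submatrix id j₀.succAbove)
    (fun j => h _ (Fin.succAbove_ne _ _))
  refine ⟨σ, (finSuccEquivLast.trans (Equiv.optionCongr τ)).trans (finSuccEquiv' j₀).symm, ?_⟩
  intro i j hij _
  refine Fin.lastCases (fun hij => ?_) (fun j hij => ?_) j hij
  · exfalso
    simp only [Fin.val_last] at hij
    have := i.2
    omega
  · have h2 : ((finSuccEquivLast.trans (Equiv.optionCongr τ)).trans (finSuccEquiv' j₀).symm)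
        j.castSucc = j₀.succAbove (τ j) := by simp
    rw [h2]
    exact hστ i j hij

open Pool.Agent.Work.CycHess in
theorem result.{u} (F : Type u) [Field F] (n : ℕ) (A : Matrix (Fin n) (Fin n) F) (hA : A.det ≠ 0)
    (h : ∃ B ∈ ({A, A.transpose, A⁻¹, A⁻¹.transpose} : Set (Matrix (Fin n) (Fin n) F)),
      AlmostHessenberg B ∨ TwoPerColumn B) :
    ∃ σ : Equiv.Perm (Fin n),
      minpoly F (A * σ.permMatrix F) = (A * σ.permMatrix F).charpoly := by
  have hu : IsUnit A.det := isUnit_iff_ne_zero.2 hA
  have key : ∀ B : Matrix (Fin n) (Fin n) F, B.det ≠ 0 → (AlmostHessenberg B ∨ TwoPerColumn B) →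
      Cy B := by
    intro B hB h
    have h' : AlmostHessenberg B := h.elim id TwoPerColumn.almostHessenberg
    obtain ⟨σ, τ, hστ⟩ := h'
    apply Cy.of_submatrix σ τ
    apply cy_of_pattern
    · intro h0
      apply hB
      have h1 := Matrix.det_submatrix_equiv_self σ (B.submatrix id (σ.symm.trans τ))
      have h2 : (B.submatrix id (σ.symm.trans τ)).submatrix σ σ = B.submatrix σ τ := by
        ext i j; simp
      rw [h2, h0] at h1
      have h3 := Matrix.det_permute' (σ.symm.trans τ) B
      rw [← h1] at h3
      rcases mul_eq_zero.1 h3.symm with h4 | h4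
      · exfalso
        rcases Int.units_eq_one_or (Equiv.Perm.sign (σ.symm.trans τ)) with h | h <;>
          simp [h] at h4
      · exact h4
    · exact hστ
  apply Cy.cyclic
  have hinv : (A⁻¹).det ≠ 0 := by
    rw [Matrix.det_nonsing_inv, Ring.inverse_eq_inv']
    exact inv_ne_zero hA
  obtain ⟨B, hB, h⟩ := h
  simp only [Set.mem_insert_iff, Set.mem_singleton_iff] at hB
  rcases hB with rfl | rfl | rfl | rfl
  · exact key _ hA h
  · have := (key _ (by rw [Matrix.det_transpose]; exact hA) h).transpose
    rwa [Matrix.transpose_transpose] at this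
  · exact (key _ hinv h).inv (Matrix.nonsing_inv_mul A hu)
  · have := (key _ (by rw [Matrix.det_transpose]; exact hinv) h).transpose
    rw [Matrix.transpose_transpose] at this
    exact this.inv (Matrix.nonsing_inv_mul A hu)

end Pool.Agent.Results.MP_dd2eb3_al.HessenbergPattern
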