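import Pool.Agent.Work.MP_dd2eb3_cyc.Perm
import Pool.Agent.Work.MP_dd2eb3_cyc.Gen

/-!
For every field `F` and every `n × n` matrix `A` the average over the permutation matrices `P` of
the sum of `2 ^ dim ker (A * P - t) - 1` over all nonzero `t` in the algebraic closure is at most
`n (n + 1) (2 n + 1) / 6`. Hence, if `A` is invertible, all but a proportion
`n (n + 1) (2 n + 1) / (6 (2 ^ (k + 1) - 1))` of the permutation matrices `P` have the property that
there are `k` vectors whose orbits under `A * P` span the space (`k = 1` is cyclicity).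
In particular some `P` works with `k = 3 log_2 n`.
-/

open Finset Module

namespace Pool.Agent.Results.MP_dd2eb3_al.LogManyGenerators

/-- `M` is generated by `k` vectors: there are vectors `v 1, ..., v k` such that the vectors
`M ^ j * v i` (`j = 0, 1, 2, ...`) span the whole space. For `k = 1` this says that `M` is cyclic. -/
def GeneratedBy {F : Type*} [Field F] {n : ℕ} (k : ℕ) (M : Matrix (Fin n) (Fin n) F) : Prop :=
  ∃ v : Fin k → (Fin n → F),
    Submodule.span F {y | ∃ (i : Fin k) (j : ℕ), y = (M ^ j).mulVec (v i)} = ⊤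

open Pool.Agent.Work.CycPerm

theorem map_mul_perm {F : Type*} [Field F] {n : ℕ} (A : Matrix (Fin n) (Fin n) F)
    (σ : Equiv.Perm (Fin n)) (L : Type*) [Field L] [Algebra F L] :
    (A * σ.permMatrix F).map (algebraMap F L) = A.map (algebraMap F L) * σ.permMatrix L := by
  rw [Matrix.map_mul]
  congr 1
  ext i j
  simp only [Matrix.map_apply, Equiv.Perm.permMatrix, PEquiv.toMatrix_apply]
  split_ifs <;> simp

theorem gm_zero {F : Type*} [Field F] {n : ℕ} (A : Matrix (Fin n) (Fin n) F) (hA : A.det ≠ 0)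
    (σ : Equiv.Perm (Fin n)) : gm (A * σ.permMatrix F) 0 = 0 := by
  rw [gm, Submodule.finrank_eq_zero, eq_bot_iff]
  intro x hx
  rw [Module.End.mem_eigenspace_iff, zero_smul, Matrix.toLin'_apply] at hx
  rw [Submodule.mem_bot]
  have hdet : (A * σ.permMatrix F).det ≠ 0 := by
    rw [Matrix.det_mul, Matrix.det_permutation]
    apply mul_ne_zero hA
    rcases Int.units_eq_one_or (Equiv.Perm.sign σ) with h | h <;> simp [h]
  exact Matrix.eq_zero_of_mulVec_eq_zero hdet hx

theorem result.{u} (F : Type u) [Field F] (n : ℕ) (A : Matrix (Fin n) (Fin n) F) :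
    (∀ S : Finset (AlgebraicClosure F), (∀ t ∈ S, t ≠ 0) →
      6 * ∑ σ : Equiv.Perm (Fin n), ∑ t ∈ S,
        (2 ^ finrank (AlgebraicClosure F) (Module.End.eigenspace (Matrix.toLin'
          ((A * σ.permMatrix F).map (algebraMap F (AlgebraicClosure F)))) t) - 1)
        ≤ n.factorial * (n * (n + 1) * (2 * n + 1))) ∧
    (A.det ≠ 0 → ∀ k : ℕ, 6 * (2 ^ (k + 1) - 1) *
        Nat.card {σ : Equiv.Perm (Fin n) // ¬ GeneratedBy k (A * σ.permMatrix F)}
        ≤ n.factorial * (n * (n + 1) * (2 * n + 1))) ∧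
    (A.det ≠ 0 → 2 ≤ n →
      ∃ σ : Equiv.Perm (Fin n), GeneratedBy (Nat.log 2 (n ^ 3)) (A * σ.permMatrix F)) := by
  classical
  refine ⟨?_, ?_⟩
  · intro S hS
    have h := sum_all_gm_le (A.map (algebraMap F (AlgebraicClosure F))) S hS
    refine le_trans (le_of_eq ?_) h
    congr 1
    apply Finset.sum_congr rfl
    intro σ _
    apply Finset.sum_congr rfl
    intro t _
    rw [map_mul_perm, gm]
  suffices H : A.det ≠ 0 → ((∀ k : ℕ, 6 * (2 ^ (k + 1) - 1) *
        Nat.card {σ : Equiv.Perm (Fin n) // ¬ GeneratedBy k (A * σ.permMatrix F)}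
        ≤ n.factorial * (n * (n + 1) * (2 * n + 1))) ∧
    (2 ≤ n → ∃ σ : Equiv.Perm (Fin n), GeneratedBy (Nat.log 2 (n ^ 3)) (A * σ.permMatrix F))) from
    ⟨fun hA => (H hA).1, fun hA => (H hA).2⟩
  intro hA
  have hmain : ∀ k : ℕ, 6 * (2 ^ (k + 1) - 1) *
        Nat.card {σ : Equiv.Perm (Fin n) // ¬ GeneratedBy k (A * σ.permMatrix F)}
        ≤ n.factorial * (n * (n + 1) * (2 * n + 1)) := by
    intro k
    let L := AlgebraicClosure F
    let B : Finset (Equiv.Perm (Fin n)) :=
      Finset.univ.filter fun σ => ¬ GeneratedBy k (A * σ.permMatrix F)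
    have hB : Nat.card {σ : Equiv.Perm (Fin n) // ¬ GeneratedBy k (A * σ.permMatrix F)} = B.card := by
      rw [Nat.card_eq_fintype_card, Fintype.card_subtype]
    have h1 : ∀ σ : Equiv.Perm (Fin n), σ ∈ B → ∃ t : L,
        k + 1 ≤ gm (A.map (algebraMap F L) * σ.permMatrix L) t := by
      intro σ hσ
      by_contra hcon
      push Not at hcon
      apply (Finset.mem_filter.mp hσ).2
      apply exists_generators (L := L)
      intro t
      rw [map_mul_perm]
      have := hcon t
      rw [gm] at this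
      omega
    choose! τ hτ using h1
    have hAL : (A.map (algebraMap F L)).det ≠ 0 := by
      have h2 : (A.map (algebraMap F L)).det = algebraMap F L A.det := by
        rw [RingHom.map_det]; rfl
      rw [h2]
      exact (map_ne_zero_iff _ (algebraMap F L).injective).mpr hA
    let S : Finset L := B.image τ
    have hS : ∀ t ∈ S, t ≠ 0 := by
      intro t ht h0
      obtain ⟨σ, hσ, rfl⟩ := Finset.mem_image.mp ht
      have h3 := hτ σ hσ
      rw [h0, gm_zero _ hAL] at h3
      omega
    have h4 := sum_all_gm_le (A.map (algebraMap F L)) S hS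
    have h5 : (2 ^ (k + 1) - 1) * B.card
        ≤ ∑ σ : Equiv.Perm (Fin n), ∑ t ∈ S,
          (2 ^ gm (A.map (algebraMap F L) * σ.permMatrix L) t - 1) := by
      calc (2 ^ (k + 1) - 1) * B.card = ∑ σ ∈ B, (2 ^ (k + 1) - 1) := by
            rw [Finset.sum_const, smul_eq_mul, mul_comm]
        _ ≤ ∑ σ ∈ B, ∑ t ∈ S, (2 ^ gm (A.map (algebraMap F L) * σ.permMatrix L) t - 1) := by
            apply Finset.sum_le_sum
            intro σ hσ
            have h6 : τ σ ∈ S := Finset.mem_image_of_mem _ hσ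
            refine le_trans ?_ (Finset.single_le_sum
              (f := fun t => 2 ^ gm (A.map (algebraMap F L) * σ.permMatrix L) t - 1)
              (fun _ _ => Nat.zero_le _) h6)
            exact Nat.sub_le_sub_right (Nat.pow_le_pow_right (by norm_num) (hτ σ hσ)) 1
        _ ≤ _ := Finset.sum_le_univ_sum_of_nonneg (fun _ => Nat.zero_le _)
    rw [hB, mul_assoc]
    exact (Nat.mul_le_mul_left 6 h5).trans h4
  refine ⟨hmain, fun hn => ?_⟩
  by_contra hcon
  push Not at hcon
  have h1 := hmain (Nat.log 2 (n ^ 3))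
  have h2 : Nat.card {σ : Equiv.Perm (Fin n) //
      ¬ GeneratedBy (Nat.log 2 (n ^ 3)) (A * σ.permMatrix F)} = n.factorial := by
    rw [Nat.card_congr (Equiv.subtypeUnivEquiv hcon), Nat.card_eq_fintype_card,
      Fintype.card_perm, Fintype.card_fin]
  rw [h2] at h1
  have h3 : n ^ 3 < 2 ^ (Nat.log 2 (n ^ 3) + 1) := Nat.lt_pow_succ_log_self (by norm_num) _
  have h4 : n ^ 3 ≤ 2 ^ (Nat.log 2 (n ^ 3) + 1) - 1 := by omega
  have h5 : 6 * n ^ 3 * n.factorial ≤ n.factorial * (n * (n + 1) * (2 * n + 1)) :=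
    (Nat.mul_le_mul_right _ (Nat.mul_le_mul_left 6 h4)).trans h1
  rw [mul_comm] at h5
  have h6 := Nat.le_of_mul_le_mul_left h5 (Nat.factorial_pos n)
  obtain ⟨m, rfl⟩ : ∃ m, n = m + 2 := ⟨n - 2, by omega⟩
  have h7 : 6 * (m + 2) ^ 3 = (m + 2) * (m + 2 + 1) * (2 * (m + 2) + 1)
      + (4 * m ^ 3 + 21 * m ^ 2 + 35 * m + 18) := by ring
  rw [h7] at h6
  have h8 : 0 < 4 * m ^ 3 + 21 * m ^ 2 + 35 * m + 18 := by positivity
  omega

end Pool.Agent.Results.MP_dd2eb3_al.LogManyGenerators
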