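import Pool.Agent.Work.MP_dd2eb3_cyc.Perm

/-!
For every field `F`, every `n × n` matrix `A` over `F` (invertible or not) and every nonzero `t` in
`F`, the average over all permutation matrices `P` of `2 ^ dim ker (A * P - t)` is at most `n + 1`.
-/

open Finset Module

namespace Pool.Agent.Results.MP_dd2eb3_al.NullityMoment

theorem result.{u} (F : Type u) [Field F] (n : ℕ) (A : Matrix (Fin n) (Fin n) F) (t : F)
    (ht : t ≠ 0) :
    ∑ σ : Equiv.Perm (Fin n),
        2 ^ finrank F (Module.End.eigenspace (Matrix.toLin' (A * σ.permMatrix F)) t)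
      ≤ (n + 1).factorial :=
  Pool.Agent.Work.CycPerm.sum_two_pow_gm_le A t ht

end Pool.Agent.Results.MP_dd2eb3_al.NullityMoment
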